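import Pool.Agent.H642.KK.Stm2

/-!
# Vaught's back-and-forth criterion for homeomorphisms of zero-dimensional compact spaces
-/

set_option autoImplicit false

namespace Pool.Agent.H650.KK.VT

open Set TopologicalSpace
open scoped Classical

section

variable {X Y : Type} [TopologicalSpace X] [TopologicalSpace Y]

/-- the clopen sets of a compact second countable space can be enumerated -/
theorem enum (X : Type) [TopologicalSpace X] [CompactSpace X] [T2Space X]
    [SecondCountableTopology X] [TotallyDisconnectedSpace X] :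
    ∃ A : ℕ → Set X, (∀ n, IsClopen (A n)) ∧ ∀ U, IsClopen U → ∃ n, A n = U := by
  have h : Countable (Clopens X) := Clopens.countable_iff_secondCountable.2 inferInstance
  obtain ⟨f, hf⟩ := exists_surjective_nat (Clopens X)
  refine ⟨fun n => (f n : Set X), fun n => (f n).isClopen, fun U hU => ?_⟩
  obtain ⟨n, hn⟩ := hf ⟨U, hU⟩
  exact ⟨n, congrArg (fun C : Clopens X => (C : Set X)) hn⟩

variable (R : Set X → Set Y → Prop)

/-- the states -/
abbrev St : Type := {p : Set X × Set Y // IsClopen p.1 ∧ IsClopen p.2 ∧ R p.1 p.2}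

variable {R}

/-- the splitting of a state -/
theorem split
    (hf : ∀ E F A, IsClopen E → IsClopen F → IsClopen A → A ⊆ E → R E F →
      ∃ B, IsClopen B ∧ B ⊆ F ∧ R A B ∧ R (E \ A) (F \ B))
    (hb : ∀ E F B, IsClopen E → IsClopen F → IsClopen B → B ⊆ F → R E F →
      ∃ A, IsClopen A ∧ A ⊆ E ∧ R A B ∧ R (E \ A) (F \ B))
    {A : ℕ → Set X} {B : ℕ → Set Y} (hA : ∀ n, IsClopen (A n)) (hB : ∀ n, IsClopen (B n))
    (n : ℕ) (p : St R) :
    ∃ q : Bool → St R, (q true).1.1 ⊆ p.1.1 ∧ (q true).1.2 ⊆ p.1.2 ∧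
      (q false).1.1 = p.1.1 \ (q true).1.1 ∧ (q false).1.2 = p.1.2 \ (q true).1.2 ∧
      (∀ m, n = 2 * m → (q true).1.1 = p.1.1 ∩ A m) ∧
      (∀ m, n = 2 * m + 1 → (q true).1.2 = p.1.2 ∩ B m) := by
  obtain ⟨⟨E, F⟩, hE, hF, hR⟩ := p
  rcases Nat.even_or_odd' n with ⟨m, hm | hm⟩
  · have h1 : IsClopen (E ∩ A m) := hE.inter (hA m)
    obtain ⟨G, g1, g2, g3, g4⟩ := hf E F (E ∩ A m) hE hF h1 inter_subset_left hR
    refine ⟨fun b => if b then ⟨(E ∩ A m, G), h1, g1, g3⟩
      else ⟨(E \ (E ∩ A m), F \ G), hE.diff h1, hF.diff g1, g4⟩, ?_⟩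
    refine ⟨inter_subset_left, g2, rfl, rfl, ?_, ?_⟩
    · intro m' hm'
      have : m' = m := by omega
      subst this
      rfl
    · intro m' hm'
      omega
  · have h1 : IsClopen (F ∩ B m) := hF.inter (hB m)
    obtain ⟨G, g1, g2, g3, g4⟩ := hb E F (F ∩ B m) hE hF h1 inter_subset_left hR
    refine ⟨fun b => if b then ⟨(G, F ∩ B m), g1, h1, g3⟩
      else ⟨(E \ G, F \ (F ∩ B m)), hE.diff g1, hF.diff h1, g4⟩, ?_⟩
    refine ⟨g2, inter_subset_left, rfl, rfl, ?_, ?_⟩
    · intro m' hm'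
      omega
    · intro m' hm'
      have : m' = m := by omega
      subst this
      rfl

/-- the state at a branch -/
def st (p₀ : St R) (q : ℕ → St R → Bool → St R) (b : ℕ → Bool) : ℕ → St R
  | 0 => p₀
  | n + 1 => q n (st p₀ q b n) (b n)

theorem st_congr {p₀ : St R} {q : ℕ → St R → Bool → St R} {b b' : ℕ → Bool} {n : ℕ}
    (h : ∀ m < n, b m = b' m) : st p₀ q b n = st p₀ q b' n := by
  induction n with
  | zero => rfl
  | succ n ih =>
    show q n (st p₀ q b n) (b n) = q n (st p₀ q b' n) (b' n)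
    rw [ih fun m hm => h m (by omega), h n (by omega)]

/-- The branch of a predicate (the sets containing a point). -/
noncomputable def brs (p₀ : St R) (q : ℕ → St R → Bool → St R) (D : St R → Prop) : ℕ → St R
  | 0 => p₀
  | n + 1 => q n (brs p₀ q D n) (decide (D (q n (brs p₀ q D n) true)))

/-- the branch -/
noncomputable def br (p₀ : St R) (q : ℕ → St R → Bool → St R) (D : St R → Prop) (n : ℕ) : Bool :=
  decide (D (q n (brs p₀ q D n) true))

theorem st_br (p₀ : St R) (q : ℕ → St R → Bool → St R) (D : St R → Prop) (n : ℕ) :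
    st p₀ q (br p₀ q D) n = brs p₀ q D n := by
  induction n with
  | zero => rfl
  | succ n ih =>
    show q n (st p₀ q (br p₀ q D) n) (br p₀ q D n) = _
    rw [ih]
    rfl

/-- the point stays in the sets of its branch -/
theorem br_mem {p₀ : St R} {q : ℕ → St R → Bool → St R} {D : St R → Prop} (h0 : D p₀)
    (hq : ∀ n p, D p → ¬ D (q n p true) → D (q n p false)) (n : ℕ) :
    D (st p₀ q (br p₀ q D) n) := by
  rw [st_br]
  induction n with
  | zero => exact h0
  | succ n ih =>
    show D (q n (brs p₀ q D n) (decide (D (q n (brs p₀ q D n) true))))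
    by_cases h : D (q n (brs p₀ q D n) true)
    · rw [decide_eq_true h]
      exact h
    · rw [decide_eq_false h]
      exact hq n _ ih h

/-- the branch is unique -/
theorem br_uniq {p₀ : St R} {q : ℕ → St R → Bool → St R} {D : St R → Prop}
    (hq : ∀ n p, D (q n p true) → ¬ D (q n p false)) {b : ℕ → Bool} {N : ℕ}
    (hb : ∀ n ≤ N, D (st p₀ q b n)) : ∀ n < N, b n = br p₀ q D n := by
  intro n
  induction n using Nat.strong_induction_on with
  | _ n ih =>
    intro hn
    have h1 : st p₀ q b n = brs p₀ q D n := by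
      rw [← st_br]
      exact st_congr fun m hm => ih m hm (by omega)
    have h2 : D (q n (st p₀ q b n) (b n)) := hb (n + 1) (by omega)
    rw [h1] at h2
    unfold br
    by_cases h : D (q n (brs p₀ q D n) true)
    · rw [decide_eq_true h]
      by_contra hne
      rw [Bool.not_eq_true] at hne
      rw [hne] at h2
      exact hq n _ h h2
    · rw [decide_eq_false h]
      by_contra hne
      rw [Bool.not_eq_false] at hne
      rw [hne] at h2
      exact h h2

end

theorem t_VT : Pool.Agent.H642.KK.S_VT := by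
  intro X Y _ _ _ _ _ _ _ _ _ _ R h0 he hf hb
  obtain ⟨A, hA, hA'⟩ := enum X
  obtain ⟨B, hB, hB'⟩ := enum Y
  choose q q1 q2 q3 q4 q5 q6 using split hf hb hA hB
  obtain ⟨p₀, hp₀⟩ : ∃ p₀ : St R, p₀.1 = (univ, univ) :=
    ⟨⟨(univ, univ), isClopen_univ, isClopen_univ, h0⟩, rfl⟩
  let S := st p₀ q
  let u : X → ℕ → Bool := fun x => br p₀ q (fun p => x ∈ p.1.1)
  let v : Y → ℕ → Bool := fun y => br p₀ q (fun p => y ∈ p.1.2)
  have S1 : ∀ b n, S b (n + 1) = q n (S b n) (b n) := fun b n => rfl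
  have hu : ∀ x n, x ∈ (S (u x) n).1.1 := by
    intro x n
    refine br_mem (D := fun p : St R => x ∈ p.1.1) ?_ ?_ n
    · show x ∈ p₀.1.1
      rw [hp₀]
      exact mem_univ x
    · intro n p h1 h2
      show x ∈ (q n p false).1.1
      rw [q3]
      exact ⟨h1, h2⟩
  have hv : ∀ y n, y ∈ (S (v y) n).1.2 := by
    intro y n
    refine br_mem (D := fun p : St R => y ∈ p.1.2) ?_ ?_ n
    · show y ∈ p₀.1.2
      rw [hp₀]
      exact mem_univ y
    · intro n p h1 h2
      show y ∈ (q n p false).1.2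
      rw [q4]
      exact ⟨h1, h2⟩
  have uu : ∀ x b N, (∀ n ≤ N, x ∈ (S b n).1.1) → ∀ n < N, b n = u x n := by
    intro x b N hb
    refine br_uniq (D := fun p : St R => x ∈ p.1.1) ?_ hb
    intro n p h1 h2
    have h3 : x ∈ (q n p false).1.1 := h2
    rw [q3] at h3
    exact h3.2 h1
  have uv : ∀ y b N, (∀ n ≤ N, y ∈ (S b n).1.2) → ∀ n < N, b n = v y n := by
    intro y b N hb
    refine br_uniq (D := fun p : St R => y ∈ p.1.2) ?_ hb
    intro n p h1 h2
    have h3 : y ∈ (q n p false).1.2 := h2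
    rw [q4] at h3
    exact h3.2 h1
  have an1 : ∀ b n, (S b (n + 1)).1.1 ⊆ (S b n).1.1 := by
    intro b n
    rw [S1]
    cases b n with
    | true => exact q1 n _
    | false => rw [q3]; exact sdiff_subset
  have an2 : ∀ b n, (S b (n + 1)).1.2 ⊆ (S b n).1.2 := by
    intro b n
    rw [S1]
    cases b n with
    | true => exact q2 n _
    | false => rw [q4]; exact sdiff_subset
  have anm : ∀ b n m, n ≤ m → (S b m).1.1 ⊆ (S b n).1.1 := by
    intro b n m h
    induction m, h using Nat.le_induction with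
    | base => exact subset_rfl
    | succ m _ ih => exact (an1 b m).trans ih
  -- decisions
  have dA : ∀ b m x x', x ∈ (S b (2 * m + 1)).1.1 → x' ∈ (S b (2 * m + 1)).1.1 → x ∈ A m →
      x' ∈ A m := by
    intro b m x x' hx hx' hxA
    rw [S1] at hx hx'
    have h1 := q5 (2 * m) (S b (2 * m)) m rfl
    cases hbm : b (2 * m) with
    | true =>
      rw [hbm, h1] at hx'
      exact hx'.2
    | false =>
      rw [hbm, q3, h1] at hx
      exact absurd ⟨hx.1, hxA⟩ hx.2
  have dB : ∀ b m y y', y ∈ (S b (2 * m + 2)).1.2 → y' ∈ (S b (2 * m + 2)).1.2 → y ∈ B m →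
      y' ∈ B m := by
    intro b m y y' hy hy' hyB
    rw [S1] at hy hy'
    have h1 := q6 (2 * m + 1) (S b (2 * m + 1)) m rfl
    cases hbm : b (2 * m + 1) with
    | true =>
      rw [hbm, h1] at hy'
      exact hy'.2
    | false =>
      rw [hbm, q4, h1] at hy
      exact absurd ⟨hy.1, hyB⟩ hy.2
  -- unique points
  have uX : ∀ b x x', (∀ n, x ∈ (S b n).1.1) → (∀ n, x' ∈ (S b n).1.1) → x = x' := by
    intro b x x' hx hx'
    by_contra hne
    obtain ⟨V, hV, hxV, hVs⟩ := compact_exists_isClopen_in_isOpen (isOpen_compl_singleton (x := x'))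
      (show x ∈ ({x'} : Set X)ᶜ from hne)
    obtain ⟨m, hm⟩ := hA' V hV
    have h1 := dA b m x x' (hx _) (hx' _) (by rw [hm]; exact hxV)
    rw [hm] at h1
    exact hVs h1 rfl
  have uY : ∀ b y y', (∀ n, y ∈ (S b n).1.2) → (∀ n, y' ∈ (S b n).1.2) → y = y' := by
    intro b y y' hy hy'
    by_contra hne
    obtain ⟨V, hV, hyV, hVs⟩ := compact_exists_isClopen_in_isOpen (isOpen_compl_singleton (x := y'))
      (show y ∈ ({y'} : Set Y)ᶜ from hne)
    obtain ⟨m, hm⟩ := hB' V hV
    have h1 := dB b m y y' (hy _) (hy' _) (by rw [hm]; exact hyV)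
    rw [hm] at h1
    exact hVs h1 rfl
  have ne : ∀ b n, (S b n).1.1.Nonempty ↔ (S b n).1.2.Nonempty := by
    intro b n
    obtain ⟨h1, h2, h3⟩ := (S b n).2
    have h4 := he _ _ h1 h2 h3
    rw [nonempty_iff_ne_empty, nonempty_iff_ne_empty, Ne, Ne, h4]
  have hx : ∀ x, ∃ y, ∀ n, y ∈ (S (u x) n).1.2 := by
    intro x
    have h1 := IsCompact.nonempty_iInter_of_sequence_nonempty_isCompact_isClosed
      (fun n => (S (u x) n).1.2) (an2 (u x)) (fun n => (ne _ n).1 ⟨x, hu x n⟩)
      ((S (u x) 0).2.2.1.isClosed.isCompact) (fun n => (S (u x) n).2.2.1.isClosed)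
    obtain ⟨y, hy⟩ := h1
    exact ⟨y, fun n => mem_iInter.1 hy n⟩
  have hy : ∀ y, ∃ x, ∀ n, x ∈ (S (v y) n).1.1 := by
    intro y
    have h1 := IsCompact.nonempty_iInter_of_sequence_nonempty_isCompact_isClosed
      (fun n => (S (v y) n).1.1) (an1 (v y)) (fun n => (ne _ n).2 ⟨y, hv y n⟩)
      ((S (v y) 0).2.1.isClosed.isCompact) (fun n => (S (v y) n).2.1.isClosed)
    obtain ⟨x, hx⟩ := h1
    exact ⟨x, fun n => mem_iInter.1 hx n⟩
  choose h hh using hx
  choose k hk using hy
  have vh : ∀ x, v (h x) = u x := by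
    intro x
    funext n
    exact (uv (h x) (u x) (n + 1) (fun m _ => hh x m) n (Nat.lt_succ_self n)).symm
  have uk : ∀ y, u (k y) = v y := by
    intro y
    funext n
    exact (uu (k y) (v y) (n + 1) (fun m _ => hk y m) n (Nat.lt_succ_self n)).symm
  have kh : ∀ x, k (h x) = x := by
    intro x
    refine uX (u x) _ _ (fun n => ?_) (hu x)
    have h1 := hk (h x) n
    rwa [vh] at h1
  have hk' : ∀ y, h (k y) = y := by
    intro y
    refine uY (v y) _ _ (fun n => ?_) (hv y)
    have h1 := hh (k y) n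
    rwa [uk] at h1
  have hc : Continuous h := by
    rw [continuous_iff_continuousAt]
    intro x
    rw [ContinuousAt, tendsto_nhds]
    intro V hV hxV
    obtain ⟨W, hW, hxW, hWV⟩ := compact_exists_isClopen_in_isOpen hV hxV
    obtain ⟨m, hm⟩ := hB' W hW
    refine Filter.mem_of_superset ((S (u x) (2 * m + 2)).2.1.isOpen.mem_nhds (hu x _)) ?_
    intro x' hx'
    apply hWV
    have h1 : ∀ n < 2 * m + 2, u x n = u x' n :=
      uu x' (u x) (2 * m + 2) (fun n hn => anm _ _ _ hn hx')
    have h2 : S (u x) (2 * m + 2) = S (u x') (2 * m + 2) := st_congr h1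
    have h3 : h x' ∈ (S (u x) (2 * m + 2)).1.2 := by
      rw [h2]
      exact hh x' _
    have h4 := dB (u x) m (h x) (h x') (hh x _) h3 (by rw [hm]; exact hxW)
    rwa [hm] at h4
  let e : X ≃ Y := ⟨h, k, kh, hk'⟩
  have hc' : Continuous e := hc
  exact ⟨hc'.homeoOfEquivCompactToT2⟩

end Pool.Agent.H650.KK.VT
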